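import Pool.Agent.Y156.L.Props
import Pool.Agent.P8H27.RF.SepDefs

/-!
# Products of ordinary abelian varieties with traces in a totally real field and arbitrary varieties:
# definitions
-/

set_option autoImplicit false

namespace Pool.Agent.P8H27.MC

open Polynomial NumberField Pool.Agent.Y156.L Pool.Agent.P8H27.RF

/-- The number `z` is supersingular: a power of `z ^ 2 / q` is one. -/
def IsSS {K : Type} [Field K] (q : ℕ) (z : K) : Prop := ∃ s : ℕ, 0 < s ∧ z ^ (2 * s) = (q : K) ^ s

/-- The roots in `K` of the polynomials `f i` are supersingular, or roots of `T ^ 2 - φ(b) T + q` for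
numbers `b ∈ S` and embeddings `φ` of `L` in `K`; and if the product of two roots is `q` up to a root of
unity then it is `q` (this is so over some finite extension of the ground field). -/
structure HasTraces (q : ℕ) {L : Type} [Field L] (S : Set (𝓞 L)) {I : Type} (f : I → ℤ[X])
    (K : Type) [Field K] : Prop where
  traces : ∀ i, ∀ z : K, aeval z (f i) = 0 →
    IsSS q z ∨ ∃ φ : L →+* K, ∃ b ∈ S, z ^ 2 - φ b * z + q = 0
  neat : ∀ i j, ∀ z z' : K, aeval z (f i) = 0 → aeval z' (f j) = 0 →
    ∀ n : ℕ, 0 < n → (z * z') ^ n = (q : K) ^ n → z * z' = q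

/-- All conjugates of `ρ` have the absolute value `q ^ (w / 2)`. -/
def IsPureOfWeight {K : Type} [Field K] [CharZero K] (q : ℕ) (w : ℤ) (ρ : K) : Prop :=
  ∀ z : ℂ, aeval z (minpoly ℚ ρ) = 0 → ‖z‖ ^ 2 = (q : ℝ) ^ w

/-- Up to a root of unity, the number `ρ` is an odd power of the square root of `q`. -/
def IsOddSS {K : Type} [Field K] (q : ℕ) (ρ : K) : Prop :=
  ∃ (n : ℕ) (k : ℤ), 0 < n ∧ Odd k ∧ ρ ^ (2 * n) = (q : K) ^ (k * n)

/-- The number `ρ` is a Weil number of some weight which is separated from the ordinary Weil numbers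
with traces in `S`; if there are supersingular roots of the polynomials `f i` then `ρ` is not an odd
power of the square root of `q = p ^ m`, up to a root of unity. -/
def IsSeparated (p m : ℕ) [Fact p.Prime] {L : Type} [Field L] [NumberField L] (S : Set (𝓞 L))
    {I : Type} (f : I → ℤ[X]) {K : Type} [Field K] [CharZero K] (ρ : K) : Prop :=
  (∃ w : ℤ, IsPureOfWeight (p ^ m) w ρ ∧ Separated p m S w ρ) ∧
    ((∀ i, ∀ z : K, aeval z (f i) = 0 → ¬ IsSS (p ^ m) z) ∨ ¬ IsOddSS (p ^ m) ρ)

/-- The Frobenius endomorphism of `U` satisfies, on the elements considered in `InvM`, for all `i` and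
`j`, a nonzero rational polynomial all of whose roots are separated. In `ℓ`-adic cohomology this is a
condition on the eigenvalues of the Frobenius endomorphism of `U`. -/
def HasSeparatedRoots (p m : ℕ) [Fact p.Prime] {L : Type} [Field L] [NumberField L]
    (S : Set (𝓞 L)) {I : Type} (f : I → ℤ[X]) {K : Type} [Field K] [CharZero K]
    {A : AbelianData K} (T : RelData A) : Prop :=
  ∀ i j : ℤ, ∃ χ : ℚ[X], χ ≠ 0 ∧ (∀ ρ : K, aeval ρ χ = 0 → IsSeparated p m S f ρ) ∧
    ∀ x, T.InvM (p ^ m) i j x → aeval T.frobM χ x = 0

/-- `TateTimes p m S f`: let `A` be an abelian variety over the field with `q = p ^ m` elements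
(`IsAbelian`) such that the eigenvalues of Frobenius on `H^1(A)` are roots of the polynomials `f i`.
There are finitely many products `D t` of divisor classes on `A`, such that for all `R` (cohomology)
relative to any scheme `U`, with the formal properties and separated eigenvalues: the Kunneth
formula holds, and for all `T` (motivic cohomology) relative to `U` with a regulator to `R`, and all
`i`, `j`, the regulator of `A × U` in bidegree `(i, j)` is onto the Frobenius invariants if and
only if those of `U` in the bidegrees `(i - 2 k, j - k)`, `0 ≤ k ≤ dim A`, are. -/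
def TateTimes (p m : ℕ) [Fact p.Prime] {L : Type} [Field L] [NumberField L] (S : Set (𝓞 L))
    {I : Type} (f : I → ℤ[X]) : Prop :=
  ∀ (K : Type) [Field K] [IsAlgClosed K] [CharZero K] (A : AbelianData K),
    HasTraces (p ^ m) S f K → IsAbelian A (p ^ m) 1 f →
    ∃ (J : Type) (_ : Fintype J) (c : J → ℕ) (D : J → A.CH), IsFamily A c D ∧
      ∀ R : RelData A, IsRel (p ^ m) R → HasSeparatedRoots p m S f R → R.Kunneth (p ^ m) c D ∧
        ∀ (T : RelData A) (ρ : Regulator T R), IsRel (p ^ m) T → IsRegulator ρ →
          ∀ i j : ℤ, OntoM ρ (p ^ m) i j ↔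
            ∀ k : ℕ, k ≤ A.dim → OntoN ρ (p ^ m) (i - 2 * k) (j - k)

/-- `ParshinTimes p m S f`: for every abelian variety `A` as in `TateTimes` there are finitely many
products `D t` of divisor classes on `A`, such that for all `T` (motivic cohomology) relative to any
scheme `Z`, with the formal properties, pure and with separated eigenvalues: the Kunneth formula
holds, and for all `i`, `j` the group `H^i(A × Z, j)` is zero if and only if the groups
`H^(i - 2 k)(Z, j - k)`, `0 ≤ k ≤ dim A`, are zero. -/
def ParshinTimes (p m : ℕ) [Fact p.Prime] {L : Type} [Field L] [NumberField L] (S : Set (𝓞 L))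
    {I : Type} (f : I → ℤ[X]) : Prop :=
  ∀ (K : Type) [Field K] [IsAlgClosed K] [CharZero K] (A : AbelianData K),
    HasTraces (p ^ m) S f K → IsAbelian A (p ^ m) 1 f →
    ∃ (J : Type) (_ : Fintype J) (c : J → ℕ) (D : J → A.CH), IsFamily A c D ∧
      ∀ T : RelData A, IsRel (p ^ m) T → T.IsPure (p ^ m) → HasSeparatedRoots p m S f T →
        T.Kunneth (p ^ m) c D ∧
        ∀ i j : ℤ, T.grM i j = ⊥ ↔ ∀ k : ℕ, k ≤ A.dim → T.grN (i - 2 * k) (j - k) = ⊥

/-- `PerfectTimes p m S f`: for every abelian variety `A` as in `TateTimes` there are finitely many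
products `D t` of divisor classes on `A`, such that for all `T` (for instance the cycles modulo
homological equivalence) relative to any smooth projective scheme `Z` of any dimension `d`, with the
formal properties, pure and with separated eigenvalues: the Kunneth formula holds, and for all `i`,
`j` the pairing `H^i(A × Z, j) × H^(2 (dim A + d) - i)(A × Z, dim A + d - j) → ℚ` is perfect if and
only if the pairings `H^(i - 2 k)(Z, j - k) × H^(2 d - (i - 2 k))(Z, d - (j - k)) → ℚ`,
`0 ≤ k ≤ dim A`, are perfect. -/
def PerfectTimes (p m : ℕ) [Fact p.Prime] {L : Type} [Field L] [NumberField L] (S : Set (𝓞 L))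
    {I : Type} (f : I → ℤ[X]) : Prop :=
  ∀ (K : Type) [Field K] [IsAlgClosed K] [CharZero K] (A : AbelianData K),
    HasTraces (p ^ m) S f K → IsAbelian A (p ^ m) 1 f →
    ∃ (J : Type) (_ : Fintype J) (c : J → ℕ) (D : J → A.CH), IsFamily A c D ∧
      ∀ T : RelData A, IsRel (p ^ m) T → T.IsPure (p ^ m) → HasSeparatedRoots p m S f T →
        T.Kunneth (p ^ m) c D ∧ ∀ B : CupProduct T, IsCupProduct B →
          ∀ d i j : ℤ, PerfectM B (A.dim + d) i j ↔
            ∀ k : ℕ, k ≤ A.dim → PerfectN B d (i - 2 * k) (j - k)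

end Pool.Agent.P8H27.MC
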