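import Pool.Agent.P8H27.RF.SepFinal
import Pool.Agent.P8H27.RF.RelS
import Pool.Agent.P8H27.RF.Kl
import Pool.Agent.P8H27.MC.Defs
import Pool.Agent.W484.HS.Abs

/-!
# Relations which contain one separated number
-/

set_option autoImplicit false
set_option linter.unusedSectionVars false
set_option linter.unusedVariables false

namespace Pool.Agent.P8H27.MC

open NumberField Polynomial Pool.Agent.H485R3 Pool.Agent.H925R2 Pool.Agent.W527.TateRing
  Pool.Agent.P8H27.RF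

variable {p m : ℕ} [hp : Fact p.Prime] {L : Type} [Field L] [NumberField L] [IsTotallyReal L]
  [IsGalois ℚ L] {Ω : Type} [Field Ω] [CharZero Ω] [IsAlgClosed Ω] {S : Set (𝓞 L)}

theorem ss_integral {q : ℕ} {z : Ω} (h : SS q z) : IsIntegral ℚ z := by
  obtain ⟨s, hs, h⟩ := h
  refine IsIntegral.of_pow (n := 2 * s) (by omega) ?_
  rw [h]
  have h4 : (q : Ω) ^ s = algebraMap ℚ Ω ((q : ℚ) ^ s) := by rw [map_pow, map_natCast]
  rw [h4]
  exact isIntegral_algebraMap

/-- The weight is determined by the relation. -/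
theorem weight_eq (hm : 0 < m) (hS : WeilBound (p ^ m) S) {κ : Type} [Fintype κ] {c : κ → Ω}
    (hc : ∀ k, SS (p ^ m) (c k) ∨
      ∃ φ : L →+* Ω, ∃ b ∈ S, c k ^ 2 - φ b * c k + ((p ^ m : ℕ) : Ω) = 0)
    {ρ : Ω} (hρ : IsIntegral ℚ ρ) {w : ℤ} (hw : IsPureOfWeight (p ^ m) w ρ) {c' : ℤ} {s : ℕ}
    (hs : 0 < s) (hrel : ((∏ k, c k) * ρ) ^ s = (((p ^ m : ℕ) : Ω) ^ c') ^ s) :
    w = 2 * c' - Fintype.card κ := by
  classical
  have hq0 : ((p ^ m : ℕ) : Ω) ≠ 0 := q_ne Ω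
  have hq1 : (1 : ℝ) < ((p ^ m : ℕ) : ℝ) := by
    exact_mod_cast Nat.one_lt_pow hm.ne' hp.out.one_lt
  have hq00 : (0 : ℝ) < ((p ^ m : ℕ) : ℝ) := one_pos.trans hq1
  have hint : ∀ k, IsIntegral ℚ (c k) := by
    intro k
    rcases hc k with h | ⟨φ, b, _, h⟩
    · exact ss_integral h
    · exact (root_integral h).tower_top
  let φ₀ : L →+* Ω := ((IsAlgClosed.lift : L →ₐ[ℚ] Ω) : L →+* Ω)
  obtain ⟨E, _, _, _, _, _, _, jΩ, a', ha', hjL⟩ := exists_field φ₀
    (K := Option κ) (fun o => o.elim ρ c) (by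
      rintro (_ | k)
      · exact hρ
      · exact hint k)
  let a : κ → E := fun k => a' (some k)
  let r : E := a' none
  have ha : ∀ k, jΩ (a k) = c k := fun k => ha' (some k)
  have hr : jΩ r = ρ := ha' none
  let jC : E →+* ℂ := ((IsAlgClosed.lift : E →ₐ[ℚ] ℂ) : E →+* ℂ)
  have hnorm : ∀ k, ‖jC (a k)‖ ^ 2 = ((p ^ m : ℕ) : ℝ) := by
    intro k
    rcases hc k with ⟨t, ht, h⟩ | ⟨φ, b, hb, h⟩
    · have h1 : (a k) ^ (2 * t) = ((p ^ m : ℕ) : E) ^ t := by
        apply jΩ.injective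
        rw [map_pow, map_pow, map_natCast, ha, h]
      have h2 := congrArg (fun x => ‖jC x‖) h1
      simp only [map_pow, map_natCast, norm_pow, pow_mul] at h2
      rw [Complex.norm_natCast] at h2
      exact (pow_left_inj₀ (by positivity) hq00.le ht.ne').1 h2
    · obtain ⟨σ, hσ⟩ := Pool.Agent.H485R3.exists_gal (φ₀.toRatAlgHom) (φ.toRatAlgHom)
      have hσ' : ∀ x, φ x = φ₀ (σ x) := fun x => hσ x
      have hc0 : c k ≠ 0 := by
        intro h0
        rw [h0] at h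
        apply hq0
        linear_combination h
      have ha0 : a k ≠ 0 := by
        intro h0
        apply hc0
        rw [← ha k, h0, map_zero]
      have htr : a k + ((p ^ m : ℕ) : E) / a k = algebraMap L E (σ (b : L)) := by
        apply jΩ.injective
        rw [map_add, map_div₀, map_natCast, hjL, ← hσ', ha]
        field_simp
        linear_combination h
      have hw := isWeil_of_trace (L := L) (E := E) (a := a k) (β := σ (b : L))
        (b.isIntegral_coe.map ((σ : L →+* L)).toIntAlgHom)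
        (fun e => hS b hb (e.comp (σ : L →+* L))) ha0 htr
      exact hw.abs jC
  have hrnorm : ‖jC r‖ ^ 2 = ((p ^ m : ℕ) : ℝ) ^ w := by
    apply hw
    have h1 : minpoly ℚ ρ = minpoly ℚ r := by
      rw [← hr]
      exact minpoly.algHom_eq (jΩ.toRatAlgHom) jΩ.injective r
    rw [h1]
    have h2 := minpoly.aeval ℚ r
    have h3 := Polynomial.aeval_algHom_apply (jC.toRatAlgHom) r (minpoly ℚ r)
    rw [h2, map_zero] at h3
    exact h3
  have hrelE : ((∏ k, a k) * r) ^ s = (((p ^ m : ℕ) : E) ^ c') ^ s := by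
    apply jΩ.injective
    rw [map_pow, map_mul, map_prod, hr, map_pow, map_zpow₀, map_natCast, ← hrel]
    congr 2
    exact Finset.prod_congr rfl fun k _ => ha k
  have h1 := congrArg (fun x => ‖jC x‖ ^ 2) hrelE
  simp only [map_pow, map_mul, map_prod, map_zpow₀, map_natCast, norm_pow, norm_mul, norm_prod,
    norm_zpow, Complex.norm_natCast] at h1
  rw [← pow_mul, mul_comm s 2, pow_mul, ← pow_mul _ s 2, mul_comm s 2, pow_mul, mul_pow,
    ← Finset.prod_pow, Finset.prod_congr rfl fun k _ => hnorm k, Finset.prod_const,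
    Finset.card_univ, hrnorm] at h1
  have h2 := (pow_left_inj₀ (by positivity) (by positivity) hs.ne').1 h1
  rw [← zpow_natCast, ← zpow_add₀ hq00.ne', ← zpow_natCast, ← zpow_mul] at h2
  have h3 := (zpow_right_injective₀ hq00 hq1.ne') h2
  push_cast at h3
  linarith

/-- A relation with a separated number contains a pair. -/
theorem exists_pair (hm : 0 < m) (hS : WeilBound (p ^ m) S) (hP : PrimeTo p S)
    (hL : numPrimes p L ≤ 2) {κ : Type} [Fintype κ] [Nonempty κ] {c : κ → Ω}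
    (hc : ∀ k, SS (p ^ m) (c k) ∨
      ∃ φ : L →+* Ω, ∃ b ∈ S, c k ^ 2 - φ b * c k + ((p ^ m : ℕ) : Ω) = 0)
    (hrel : Rel (p ^ m) c) :
    (∃ k k', k ≠ k' ∧ ∃ s : ℕ, 0 < s ∧ (c k * c k') ^ s = ((p ^ m : ℕ) : Ω) ^ s) ∨
      ∃ k, Fintype.card κ = 1 ∧ SS (p ^ m) (c k) := by
  classical
  have hq0 : ((p ^ m : ℕ) : Ω) ≠ 0 := q_ne Ω
  let Z : Finset κ := Finset.univ.filter fun k => SS (p ^ m) (c k)
  have hZ : RelS (p ^ m) c Z := relS_of_ss Z fun k hk => (Finset.mem_filter.1 hk).2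
  have hN := RelS.sdiff hq0 (relS_univ.2 hrel) hZ (Finset.subset_univ Z)
  have hNss : ∀ k ∈ Finset.univ \ Z, ¬ SS (p ^ m) (c k) := by
    intro k hk hss
    exact (Finset.mem_sdiff.1 hk).2 (Finset.mem_filter.2 ⟨Finset.mem_univ k, hss⟩)
  rcases (Finset.univ \ Z).eq_empty_or_nonempty with h0 | hne
  · have hall : ∀ k, SS (p ^ m) (c k) := by
      intro k
      have h1 : k ∈ Z := by
        by_contra h2
        have h3 : k ∈ Finset.univ \ Z := Finset.mem_sdiff.2 ⟨Finset.mem_univ k, h2⟩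
        rw [h0] at h3
        exact absurd h3 (Finset.notMem_empty k)
      exact (Finset.mem_filter.1 h1).2
    rcases lt_or_ge 1 (Fintype.card κ) with h1 | h1
    · left
      obtain ⟨k, k', hkk⟩ := Fintype.one_lt_card_iff.1 h1
      obtain ⟨s, hs, h2⟩ := hall k
      obtain ⟨t, ht, h3⟩ := hall k'
      refine ⟨k, k', hkk, 2 * s * t, by positivity, ?_⟩
      have h4 : c k ^ (2 * s * t) = ((p ^ m : ℕ) : Ω) ^ (s * t) := by
        rw [pow_mul, h2, ← pow_mul]
      have h5 : c k' ^ (2 * s * t) = ((p ^ m : ℕ) : Ω) ^ (s * t) := by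
        have h6 : 2 * s * t = 2 * t * s := by ring
        rw [h6, pow_mul, h3, ← pow_mul, mul_comm t s]
      rw [mul_pow, h4, h5, ← pow_add]
      congr 1
      ring
    · right
      obtain ⟨k⟩ := (inferInstance : Nonempty κ)
      exact ⟨k, le_antisymm h1 Fintype.card_pos, hall k⟩
  · left
    have : Nonempty {k // k ∈ Finset.univ \ Z} := hne.to_subtype
    obtain ⟨D⟩ := exists_data (L := L) (S := S) hS
      (c := fun k : {k // k ∈ Finset.univ \ Z} => c k)
      (fun k => hNss k k.2) (fun k => (hc k).resolve_left (hNss k k.2)) ((relS_iff _).1 hN)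
    obtain ⟨T, h1, h2, h3, h4⟩ := block_equal hm (equalSlopes_of_primeTo hP) D bound_two hL
    have hT : T.card = 2 := by
      have h5 := h1.card_pos
      obtain ⟨r, hr⟩ := h3
      omega
    obtain ⟨k, k', hkk, rfl⟩ := Finset.card_eq_two.1 hT
    refine ⟨k, k', fun h => hkk (Subtype.ext h), ?_⟩
    obtain ⟨s, hs, h5⟩ := (relS_iff (q := p ^ m)
      (c := fun k : {k // k ∈ Finset.univ \ Z} => c k) {k, k'}).2 h4
    refine ⟨2 * s, by omega, ?_⟩
    rw [Finset.prod_pair hkk, Finset.card_pair hkk] at h5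
    rw [h5, mul_comm s 2]

variable {I : Type} {f : I → ℤ[X]}

/-- **Pairs.** -/
theorem exactPair (hm : 0 < m) (hS : WeilBound (p ^ m) S) (hP : PrimeTo p S)
    (hL : numPrimes p L ≤ 2) (hT : HasTraces (p ^ m) S f Ω) {ρ : Ω} (hρ : IsIntegral ℚ ρ)
    (hsep : IsSeparated p m S f ρ) (s₀ : ℕ) (hs₀ : s₀ = 1) :
    Pool.Agent.W484.HS.ExactPairK (fun z : {z : Ω // ∃ i, aeval z (f i) = 0} => (z : Ω) ^ s₀)
      ((p ^ m : ℕ) : Ω) ρ := by
  subst hs₀
  intro n c s hs hn ys hlen hrel hpw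
  have hq0 : ((p ^ m : ℕ) : Ω) ≠ 0 := q_ne Ω
  have hys : (ys.map (fun z : {z : Ω // ∃ i, aeval z (f i) = 0} => (z : Ω) ^ 1)).prod =
      ∏ k : Fin ys.length, ((ys[k.1] : {z : Ω // ∃ i, aeval z (f i) = 0}) : Ω) := by
    rw [← Fin.prod_univ_fun_getElem ys]
    exact Finset.prod_congr rfl fun k _ => pow_one _
  rw [hys] at hrel
  have hc : ∀ k : Fin ys.length, SS (p ^ m) ((ys[k.1] : {z : Ω // ∃ i, aeval z (f i) = 0}) : Ω) ∨
      ∃ φ : L →+* Ω, ∃ b ∈ S, ((ys[k.1] : {z : Ω // ∃ i, aeval z (f i) = 0}) : Ω) ^ 2 -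
        φ b * ((ys[k.1] : {z : Ω // ∃ i, aeval z (f i) = 0}) : Ω) + ((p ^ m : ℕ) : Ω) = 0 := by
    intro k
    obtain ⟨i, hi⟩ := (ys[k.1]).2
    exact hT.traces i _ hi
  obtain ⟨⟨w, hw1, hw2⟩, hodd⟩ := hsep
  have hw := weight_eq hm hS hc hρ hw1 hs hrel
  have hP0 : (∏ k : Fin ys.length, ((ys[k.1] : {z : Ω // ∃ i, aeval z (f i) = 0}) : Ω)) * ρ ≠ 0 := by
    intro h0
    rw [h0, zero_pow hs.ne'] at hrel
    exact pow_ne_zero _ (zpow_ne_zero _ hq0) hrel.symm
  have hρ0 : ρ ≠ 0 := right_ne_zero_of_mul hP0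
  have hne : Nonempty (Fin ys.length) := ⟨⟨0, by omega⟩⟩
  have hR := rel_of_separated' (w := w) hm hS hP hc hρ0 hw2 hs (by
    rw [← mul_pow, mul_comm 2 s, pow_mul, hrel, hw, ← pow_mul, ← zpow_natCast, ← zpow_mul]
    congr 1
    push_cast
    ring)
  rcases exists_pair hm hS hP hL hc hR with ⟨k, k', hkk, t, ht, h⟩ | ⟨k, hcard, hss⟩
  · obtain ⟨i, hi⟩ := (ys[k.1]).2
    obtain ⟨i', hi'⟩ := (ys[k'.1]).2
    have h1 := hT.neat i i' _ _ hi hi' t ht h
    rw [List.pairwise_iff_getElem] at hpw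
    rcases lt_or_gt_of_ne (fun h => hkk (Fin.ext h) : k.1 ≠ k'.1) with hlt | hlt
    · exact hpw k.1 k'.1 k.2 k'.2 hlt (by simpa only [pow_one] using h1)
    · exact hpw k'.1 k.1 k'.2 k.2 hlt (by
        rw [mul_comm]
        simpa only [pow_one] using h1)
  · rcases hodd with h1 | h1
    · obtain ⟨i, hi⟩ := (ys[k.1]).2
      exact h1 i _ hi hss
    · apply h1
      obtain ⟨t, ht, h2⟩ := hss
      have hlen1 : ys.length = 1 := by rwa [Fintype.card_fin] at hcard
      have hsub : Subsingleton (Fin ys.length) := by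
        rw [hlen1]
        infer_instance
      have h3 : ∏ k : Fin ys.length, ((ys[k.1] : {z : Ω // ∃ i, aeval z (f i) = 0}) : Ω) =
          ((ys[k.1] : {z : Ω // ∃ i, aeval z (f i) = 0}) : Ω) := Fintype.prod_subsingleton _ k
      rw [h3] at hrel
      refine ⟨s * t, 2 * c - 1, Nat.mul_pos hs ht, ⟨c - 1, by ring⟩, ?_⟩
      have h4 : ((((ys[k.1] : {z : Ω // ∃ i, aeval z (f i) = 0}) : Ω) * ρ) ^ s) ^ (2 * t) =
        ((((p ^ m : ℕ) : Ω) ^ c) ^ s) ^ (2 * t) := by rw [hrel]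
      rw [← pow_mul, mul_pow, mul_comm s (2 * t), pow_mul, h2, ← pow_mul, ← pow_mul] at h4
      have h5 : ((p ^ m : ℕ) : Ω) ^ (t * s) ≠ 0 := pow_ne_zero _ hq0
      apply mul_left_cancel₀ h5
      have h6 : 2 * (s * t) = 2 * t * s := by ring
      rw [h6, h4, ← zpow_natCast, ← zpow_natCast, ← zpow_mul, ← zpow_add₀ hq0]
      congr 1
      push_cast
      ring

end Pool.Agent.P8H27.MC
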