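import Pool.Agent.P8H27.MC.Core
import Pool.Agent.P8H27.MC.Pair

/-!
# Products of ordinary abelian varieties with traces in a totally real field and arbitrary varieties
-/

set_option autoImplicit false
set_option linter.unusedSectionVars false
set_option linter.unusedVariables false

namespace Pool.Agent.P8H27.MC

open NumberField Polynomial Pool.Agent.Y156.L Pool.Agent.P8H27.RF

variable {p m : ℕ} [hp : Fact p.Prime] {L : Type} [Field L] [NumberField L] [IsTotallyReal L]
  [IsGalois ℚ L] {S : Set (𝓞 L)} {K : Type} [Field K] [CharZero K] [IsAlgClosed K]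
  {I : Type} {f : I → ℤ[X]}

omit [IsTotallyReal L] [IsGalois ℚ L] [IsAlgClosed K] in
theorem integral_of_traces {q : ℕ} (hT : HasTraces q S f K) (i : I) (z : K)
    (hz : aeval z (f i) = 0) : IsIntegral ℚ z := by
  rcases hT.traces i z hz with h | ⟨φ, b, _, h⟩
  · obtain ⟨s, hs, h⟩ := h
    refine IsIntegral.of_pow (n := 2 * s) (by omega) ?_
    rw [h]
    have h4 : (q : K) ^ s = algebraMap ℚ K ((q : ℚ) ^ s) := by rw [map_pow, map_natCast]
    rw [h4]
    exact isIntegral_algebraMap
  · exact (root_integral h).tower_top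

theorem not_isSeparated_zero (hm : 0 < m) : ¬ IsSeparated p m S f (0 : K) := by
  rintro ⟨⟨w, h, -⟩, -⟩
  have h1 : aeval (0 : ℂ) (minpoly ℚ (0 : K)) = 0 := by
    rw [minpoly.zero, aeval_X]
  have h2 := h 0 h1
  rw [norm_zero, zero_pow two_ne_zero] at h2
  have h3 : (0 : ℝ) < ((p ^ m : ℕ) : ℝ) := by
    exact_mod_cast pow_pos hp.out.pos m
  exact absurd h2 (zpow_pos h3 w).ne

theorem isSeparated_one (hm : 0 < m) : IsSeparated p m S f (1 : K) := by
  have h3 : (0 : ℝ) < ((p ^ m : ℕ) : ℝ) := by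
    exact_mod_cast pow_pos hp.out.pos m
  refine ⟨⟨0, fun z hz => ?_, Or.inl fun z hz => ?_⟩, Or.inr ?_⟩
  · rw [minpoly.one, map_sub, aeval_X, map_one, sub_eq_zero] at hz
    rw [hz, norm_one, one_pow, zpow_zero]
  · classical
    unfold padicConj at hz
    rw [Multiset.mem_toFinset, minpoly.one, mem_aroots, map_sub, aeval_X, map_one, sub_eq_zero]
      at hz
    rw [hz.2]
    unfold val
    rw [norm_one, Real.logb_one]
    simp
  · rintro ⟨n, k, hn, hk, h⟩
    have hq1 : 1 < p ^ m := Nat.one_lt_pow hm.ne' hp.out.one_lt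
    rw [one_pow] at h
    have h4 : ((p ^ m : ℕ) : ℚ) ^ (k * n) = 1 := by
      have h5 : ((((p ^ m : ℕ) : ℚ) ^ (k * n) : ℚ) : K) = ((1 : ℚ) : K) := by
        push_cast
        push_cast at h
        exact h.symm
      exact Rat.cast_injective h5
    have h5 : ((p ^ m : ℕ) : ℚ) ^ (k * n) = ((p ^ m : ℕ) : ℚ) ^ (0 : ℤ) := by
      rw [h4, zpow_zero]
    have h6 := zpow_right_injective₀ (a := ((p ^ m : ℕ) : ℚ)) (by exact_mod_cast (by omega))
      (by exact_mod_cast hq1.ne') h5
    have h7 : k = 0 := (mul_eq_zero.1 h6).resolve_right (by exact_mod_cast hn.ne')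
    rw [h7] at hk
    exact absurd hk (by decide)

theorem exactPair' (hm : 0 < m) (hS : WeilBound (p ^ m) S) (hP : PrimeTo p S)
    (hL : numPrimes p L ≤ 2) (hT : HasTraces (p ^ m) S f K) (ρ : K) (hρ : IsIntegral ℚ ρ)
    (hsep : IsSeparated p m S f ρ) :
    Pool.Agent.W484.HS.ExactPairK (fun z : {z : K // ∃ i, aeval z (f i) = 0} => (z : K) ^ 1)
      (((p ^ m : ℕ) : K) ^ 1) ρ := by
  rw [pow_one]
  exact exactPair hm hS hP hL hT hρ hsep 1 rfl

section

variable (hm : 0 < m) (hS : WeilBound (p ^ m) S) (hP : PrimeTo p S) (hL : numPrimes p L ≤ 2)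

include hm hS hP hL

theorem tateTimes : TateTimes p m S f := by
  intro K _ _ _ A hT hA
  have hq : 1 < p ^ m := Nat.one_lt_pow hm.ne' hp.out.one_lt
  have h := tateProp hq hA (integral_of_traces hT) (IsSeparated p m S f)
    (exactPair' hm hS hP hL hT) (isSeparated_one hm) (not_isSeparated_zero hm)
  rw [pow_one] at h
  exact h

theorem parshinTimes : ParshinTimes p m S f := by
  intro K _ _ _ A hT hA
  have hq : 1 < p ^ m := Nat.one_lt_pow hm.ne' hp.out.one_lt
  have h := parshinProp hq hA (integral_of_traces hT) (IsSeparated p m S f)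
    (exactPair' hm hS hP hL hT) (isSeparated_one hm) (not_isSeparated_zero hm)
  rw [pow_one] at h
  exact h

theorem perfectTimes : PerfectTimes p m S f := by
  intro K _ _ _ A hT hA
  have hq : 1 < p ^ m := Nat.one_lt_pow hm.ne' hp.out.one_lt
  have h := perfectProp hq hA (integral_of_traces hT) (IsSeparated p m S f)
    (exactPair' hm hS hP hL hT) (isSeparated_one hm) (not_isSeparated_zero hm)
  rw [pow_one] at h
  exact h

end

end Pool.Agent.P8H27.MC
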