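import Pool.Agent.P8H27.MC.Main

/-!
# Homological and numerical equivalence on the products
-/

set_option autoImplicit false
set_option linter.unusedSectionVars false
set_option linter.unusedVariables false

namespace Pool.Agent.P8H27.MC

open NumberField Polynomial Pool.Agent.Y156.L Pool.Agent.P8H27.RF

section defs

variable {K : Type} [Field K] {A : AbelianData K}

/-- No nonzero element of `H^i(Z, j)` is orthogonal to `H^(2 d - i)(Z, d - j)`. If the theory
consists of the cycles modulo homological equivalence and `d = dim Z` then this says, for `i = 2 j`, that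
the cycles of codimension `j` on `Z` which are numerically equivalent to zero are homologically
equivalent to zero. -/
def NumN {T : RelData A} (B : CupProduct T) (d i j : ℤ) : Prop :=
  ∀ x : T.N, T.DegN i j x → (∀ y, T.DegN (2 * d - i) (d - j) y → B.cupN x y = 0) → x = 0

/-- No nonzero element of `H^i(A × Z, j)` is orthogonal to `H^(2 d - i)(A × Z, d - j)`. If the theory
consists of the cycles modulo homological equivalence and `d = dim (A × Z)` then this says, for `i = 2 j`,
that the cycles of codimension `j` on `A × Z` which are numerically equivalent to zero are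
homologically equivalent to zero. -/
def NumM {T : RelData A} (B : CupProduct T) (d i j : ℤ) : Prop :=
  ∀ x : T.M, T.DegM i j x → (∀ y, T.DegM (2 * d - i) (d - j) y → B.cupM x y = 0) → x = 0

end defs

/-- `NumTimes p m S f`: let `A` be an abelian variety over the field with `q = p ^ m` elements
(`IsAbelian`) such that the eigenvalues of Frobenius on `H^1(A)` are roots of the polynomials `f i`.
There are finitely many products `D t` of divisor classes on `A`, such that for all `T` (the cycles
modulo homological equivalence) relative to any smooth projective scheme `Z` of any dimension `d`,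
with the formal properties, pure and with separated eigenvalues: the Kunneth formula holds, and
homological and numerical equivalence coincide in bidegree `(i, j)` on `A × Z` if and only if they do in
the bidegrees `(i - 2 k, j - k)`, `0 ≤ k ≤ dim A`, on `Z`. -/
def NumTimes (p m : ℕ) [Fact p.Prime] {L : Type} [Field L] [NumberField L] (S : Set (𝓞 L))
    {I : Type} (f : I → ℤ[X]) : Prop :=
  ∀ (K : Type) [Field K] [IsAlgClosed K] [CharZero K] (A : AbelianData K),
    HasTraces (p ^ m) S f K → IsAbelian A (p ^ m) 1 f →
    ∃ (J : Type) (_ : Fintype J) (c : J → ℕ) (D : J → A.CH), IsFamily A c D ∧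
      ∀ T : RelData A, IsRel (p ^ m) T → T.IsPure (p ^ m) → HasSeparatedRoots p m S f T →
        T.Kunneth (p ^ m) c D ∧ ∀ B : CupProduct T, IsCupProduct B →
          ∀ d i j : ℤ, NumM B (A.dim + d) i j ↔
            ∀ k : ℕ, k ≤ A.dim → NumN B d (i - 2 * k) (j - k)

section num

variable {K : Type} [Field K] [CharZero K] {A : AbelianData K} {J : Type} [Fintype J]
  {c : J → ℕ} {D E : J → A.CH} {Q : ℕ}

theorem num_iff (hF : IsFamily A c D) (h : IsDual A c D E) {T : RelData A} (hT : IsRel Q T)
    {B : CupProduct T} (hB : IsCupProduct B)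
    (hexp : ∀ (i j : ℤ), ∀ m ∈ T.grM i j, m = ∑ t, T.times (D t) (T.pair (E t) m))
    (d i j : ℤ) : NumM B (A.dim + d) i j ↔
      ∀ k : ℕ, k ≤ A.dim → NumN B d (i - 2 * k) (j - k) := by
  classical
  have hc : ∀ t, ((A.dim - c t : ℕ) : ℤ) = A.dim - c t := fun t => Nat.cast_sub (h.le t)
  constructor
  · intro h0 k hk x hx hx2
    obtain ⟨t, rfl⟩ := hF.exists_eq k hk
    have h1 := hT.times_mem (h.left t) hx
    rw [sub_add_cancel, sub_add_cancel] at h1
    have h2 := h0 _ h1 (fun y hy => by
      have h3 : B.BM (T.times (D t) x) y = B.BN x (T.pair (D t) y) := hB.left (D t) x y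
      change B.BM (T.times (D t) x) y = 0
      rw [h3]
      refine hx2 _ ?_
      have h4 := hT.pair_mem (c := A.dim - c t) (by have := h.le t; omega) (h.left t) hy
      rw [hc] at h4
      have e1 : 2 * ((A.dim : ℤ) + d) - i - 2 * (A.dim - c t) = 2 * d - (i - 2 * c t) := by ring
      have e2 : (A.dim : ℤ) + d - j - (A.dim - c t) = d - (j - c t) := by ring
      rw [e1, e2] at h4
      exact h4)
    have h3 := dualpair hT h t t x
    rw [h2, map_zero, if_pos rfl] at h3
    exact h3.symm
  · intro h0 x hx hx2
    change x ∈ T.grM i j at hx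
    rw [hexp i j x hx]
    refine Finset.sum_eq_zero fun t _ => ?_
    have h1 : T.pair (E t) x = 0 := by
      refine h0 (c t) (h.le t) _ (hT.pair_mem (by have := h.le t; omega) (h.right t) hx) ?_
      intro y hy
      have h3 : B.BM x (T.times (E t) y) = B.BN (T.pair (E t) x) y := hB.right (E t) x y
      change B.BN (T.pair (E t) x) y = 0
      rw [← h3]
      refine hx2 _ ?_
      have h4 := hT.times_mem (h.right t) hy
      rw [hc] at h4
      have e1 : 2 * d - (i - 2 * (c t : ℤ)) + 2 * (A.dim - c t) = 2 * ((A.dim : ℤ) + d) - i := by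
        ring
      have e2 : d - (j - (c t : ℤ)) + (A.dim - c t) = (A.dim : ℤ) + d - j := by ring
      rw [e1, e2] at h4
      exact h4
    rw [h1, map_zero]

end num

variable {p m : ℕ} [hp : Fact p.Prime] {L : Type} [Field L] [NumberField L] [IsTotallyReal L]
  [IsGalois ℚ L] {S : Set (𝓞 L)} {I : Type} {f : I → ℤ[X]}

theorem numTimes (hm : 0 < m) (hS : WeilBound (p ^ m) S) (hP : PrimeTo p S)
    (hL : numPrimes p L ≤ 2) : NumTimes p m S f := by
  intro K _ _ _ A hT hA
  have hq : 1 < p ^ m := Nat.one_lt_pow hm.ne' hp.out.one_lt
  have h := exists_classes hq hA (integral_of_traces hT) (IsSeparated p m S f)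
    (exactPair' hm hS hP hL hT) (isSeparated_one hm) (not_isSeparated_zero hm)
  rw [pow_one] at h
  obtain ⟨J, hJ, c, D, E', hF, hdual, hQ, hmain⟩ := h
  refine ⟨J, hJ, c, D, hF, fun T hT hpure hrank => ?_⟩
  have hexp := fun i j m hm => (hmain T hT hrank i j m hm).1
  exact ⟨kunneth_of hQ hT hdual hexp, fun B hB d i j =>
    num_iff hF hdual hT hB (fun i j m hm => hexp i j m (hpure i j m hm)) d i j⟩

end Pool.Agent.P8H27.MC
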